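import Pool.Agent.Lib.MP_973905_nt.K2.Defs

/-! Statements (as propositions) of the modules of folder K2. -/

namespace Pool.Agent.Lib.MP_973905_nt
namespace K2

open MeasureTheory ProbabilityTheory Complex Filter Topology

/-- (0) helper99: mollified fourth moment on the critical line, order of magnitude -/
def StF4 : Prop := ∃ C κ : ℝ, 0 < C ∧ 0 < κ ∧ ∃ M₀ : ℕ, ∀ M : ℕ, M₀ ≤ M → ∃ T₀ : ℝ, 3 ≤ T₀ ∧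
    ∀ T, T₀ ≤ T → ∀ k : ℝ, 1 ≤ k → k < 2 → ∀ g h : Finset ℕ, g ∪ h = Finset.range (JJ T + 1) →
    EF T (fun t => ‖riemannZeta (1 / 2 + t * I)‖ ^ 4 *
      ‖AA T M (JJ T) (k - 2) g h (fs (1 / 2 + t * I))‖ ^ 2) ≤
      Real.exp (C * M) * (Real.log T) ^ (k ^ 2) * ∏ j ∈ h, ss M (JJ T) j + T ^ (-κ)

/-- (1) pointwise inequality behind Hoelder between the second and the fourth moment -/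
def StPoint2 : Prop := ∀ (l r : ℕ) (k K : ℝ), 1 ≤ k → k ≤ 2 → 1 ≤ K → 10 * K ≤ l → ∀ z : ℂ,
    (1 - Real.exp (-K)) ^ 2 ≤ (‖Ntr l (k - 1) z‖ ^ 2 + ‖(z / K) ^ r‖ ^ 2) ^ (2 - k) *
      (‖Ntr l (k - 2) z‖ ^ 2 + ‖(z / K) ^ r‖ ^ 2) ^ (k - 1)

/-- (1') pointwise inequality for the lower bound, on the good set -/
def StPoint3 : Prop := ∀ (l : ℕ) (k K : ℝ), 1 ≤ k → k ≤ 2 → 3 ≤ K → 10 * K ≤ l → ∀ z : ℂ, ‖z‖ ≤ K →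
    ‖Ntr l (k - 1) z‖ * ‖Ntr l k z‖ ≤
      (1 + 4 * Real.exp (-K)) * (‖Ntr l k z‖ ^ 2) ^ (1 - 1 / (2 * k))

/-- (2) one block, `1 ≤ k ≤ 2` (compare `block_core` in Core2.lean) -/
def StBlock2 : Prop := ∃ C₁ : ℝ, 0 < C₁ ∧ ∀ (A l : ℕ) (S : Finset ℕ) (σ k : ℝ), 1 ≤ A →
    (∀ p ∈ S, p.Prime) → 1 / 2 ≤ σ → 1 ≤ k → k ≤ 2 → 1 ≤ DS k σ S →
    16 * Real.exp (C₁ * ∑ p ∈ S, (p : ℝ) ^ (-(2 * σ))) ≤ Real.exp (l / 2) →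
    ES S (fun f => ‖ZZ S (tw σ f) ^ 2 * Ntr l (k - 2) (Pj A S (tw σ f))‖ ^ 2) ≤
      DS k σ S * Real.exp (5 * rho A S + 3 * Real.exp (-(l / 2))) ∧
    ES S (fun f => ‖ZZ S (tw σ f) * Ntr l (k - 1) (Pj A S (tw σ f))‖ ^ 2) ≤
      DS k σ S * Real.exp (5 * rho A S + 3 * Real.exp (-(l / 2))) ∧
    ES S (fun f => ‖Ntr l k (Pj A S (tw σ f))‖ ^ 2) ≤
      DS k σ S * Real.exp (5 * rho A S + 3 * Real.exp (-(l / 2))) ∧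
    ‖ES S (fun f => ZZ S (tw σ f) * Ntr l (k - 1) (Pj A S (tw σ f)) *
        (starRingEnd ℂ) (Ntr l k (Pj A S (tw σ f)))) - (DS k σ S : ℂ)‖ ≤
      DS k σ S * (Real.exp (5 * rho A S) - 1 + 2 * Real.exp (-(l / 2))) ∧
    ∀ (r : ℕ) (F : (ℕ → ℂ) → ℂ), (∀ f, ‖F f‖ ≤ (1 / 4) ^ r * Real.exp (3 * ‖Pj A S f‖)) →
      ES S (fun f => ‖F (tw σ f)‖ ^ 2) ≤
        (1 / 16) ^ r * (16 * Real.exp (C₁ * ∑ p ∈ S, (p : ℝ) ^ (-(2 * σ))))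

/-- (3) sharp random model statements on the line, `1 ≤ k ≤ 2` (compare `core_rand` in Core3.lean) -/
def StCore2 : Prop := ∀ δ : ℝ, 0 < δ → ∃ M₀ : ℕ, ∀ M : ℕ, M₀ ≤ M → ∀ c : ℝ,
    (M : ℝ) ≤ c * Real.exp (-(M : ℝ)) → ∃ T₀ : ℝ, 3 ≤ T₀ ∧ ∀ T, T₀ ≤ T → ∀ k : ℝ, 1 ≤ k → k ≤ 2 →
    ER (SB T M (JJ T)) (fun f =>
      ‖ZZ (UU (SB T M (JJ T))) (tw ((1 / 2 + c / Real.log T : ℝ) : ℂ) f)‖ ^ 4 *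
      ‖AA T M (JJ T) (k - 2) (Finset.range (JJ T + 1)) ∅ (tw ((1 / 2 + c / Real.log T : ℝ) : ℂ) f)‖ ^ 2) ≤
      (1 + δ) * DJ k (1 / 2 + c / Real.log T) T M (JJ T) ∧
    ER (SB T M (JJ T)) (fun f =>
      ‖ZZ (UU (SB T M (JJ T))) (tw ((1 / 2 + c / Real.log T : ℝ) : ℂ) f)‖ ^ 2 *
      ‖AA T M (JJ T) (k - 1) (Finset.range (JJ T + 1)) ∅ (tw ((1 / 2 + c / Real.log T : ℝ) : ℂ) f)‖ ^ 2) ≤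
      (1 + δ) * DJ k (1 / 2 + c / Real.log T) T M (JJ T) ∧
    (∀ g h : Finset ℕ, g ∪ h = Finset.range (JJ T + 1) →
      ER (SB T M (JJ T)) (fun f =>
        ‖AA T M (JJ T) k g h (tw ((1 / 2 + c / Real.log T : ℝ) : ℂ) f)‖ ^ 2) ≤
        (1 + δ) * DJ k (1 / 2 + c / Real.log T) T M (JJ T) * ∏ j ∈ h, ss M (JJ T) j) ∧
    ‖ER (SB T M (JJ T)) (fun f =>
      ZZ (UU (SB T M (JJ T))) (tw ((1 / 2 + c / Real.log T : ℝ) : ℂ) f) *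
      AA T M (JJ T) (k - 1) (Finset.range (JJ T + 1)) ∅ (tw ((1 / 2 + c / Real.log T : ℝ) : ℂ) f) *
      (starRingEnd ℂ) (AA T M (JJ T) k (Finset.range (JJ T + 1)) ∅
        (tw ((1 / 2 + c / Real.log T : ℝ) : ℂ) f))) - (DJ k (1 / 2 + c / Real.log T) T M (JJ T) : ℂ)‖ ≤
      δ * DJ k (1 / 2 + c / Real.log T) T M (JJ T)

/-- (4) large frequencies of `SQ ^ 2 * A` are controlled further to the left, small ones by Bessel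
(compare `ss_split` in Split.lean) -/
def StSplit4 : Prop := ∀ (m : ℕ) (Sb : Fin m → Finset ℕ), Blk Sb → ∀ T : ℝ, 1 < T →
    (∀ n : ℕ, 1 ≤ n → (n : ℝ) ≤ T → n ∈ Nat.factoredNumbers (UU Sb)) → ∀ (A : (ℕ → ℂ) → ℂ) (M' : ℝ),
    DP (T ^ (1 / 10 : ℝ)) M' A → ∀ σ σ₁ : ℝ, 1 / 2 ≤ σ₁ → σ₁ ≤ σ →
    ER Sb (fun f => ‖SQ T (tw σ f)‖ ^ 4 * ‖A (tw σ f)‖ ^ 2) ≤
      ER Sb (fun f => ‖ZZ (UU Sb) (tw σ f)‖ ^ 4 * ‖A (tw σ f)‖ ^ 2) +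
      T ^ (-(3 / 5 : ℝ) * (σ - σ₁)) * ER Sb (fun f => ‖SQ T (tw σ₁ f)‖ ^ 4 * ‖A (tw σ₁ f)‖ ^ 2)

/-- (5) second moment in the random model, `1 ≤ k ≤ 2` (compare `xbound` in XBound.lean) -/
def StXB2 : Prop := ∃ C₀ : ℝ, 0 < C₀ ∧ ∀ c₁ : ℝ, 0 < c₁ → ∃ M₀ : ℕ, ∀ M : ℕ, M₀ ≤ M → ∀ c : ℝ, 0 ≤ c →
    ∃ T₀ : ℝ, 3 ≤ T₀ ∧ ∀ T, T₀ ≤ T → ∀ k : ℝ, 1 ≤ k → k ≤ 2 → ∀ g h : Finset ℕ,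
    g ∪ h = Finset.range (JJ T + 1) → ∀ a₁ a₂ : ℝ, 0 ≤ a₁ → a₁ ≤ c → -c₁ ≤ a₂ → a₂ ≤ c →
    ER (SB T M (JJ T)) (fun f => ‖SS T (tw ((1 / 2 + a₁ / Real.log T : ℝ) : ℂ) f)‖ ^ 2 *
        ‖AA T M (JJ T) (k - 1) g h (tw ((1 / 2 + a₂ / Real.log T : ℝ) : ℂ) f)‖ ^ 2) ≤
      Real.exp (C₀ * M) * (1 + c) ^ C₀ * (Real.log T) ^ (k ^ 2) * ∏ j ∈ h, ss M (JJ T) j

/-- (6) fourth moment in the random model, `1 ≤ k ≤ 2` (helper86, Fourth2.lean) -/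
def StXB4 : Prop := ∃ C₀ : ℝ, 0 < C₀ ∧ ∃ M₀ : ℕ, ∀ M : ℕ, M₀ ≤ M → ∀ c : ℝ, 0 ≤ c →
    ∃ T₀ : ℝ, 3 ≤ T₀ ∧ ∀ T, T₀ ≤ T → ∀ k : ℝ, 1 ≤ k → k ≤ 2 → ∀ g h : Finset ℕ,
    g ∪ h = Finset.range (JJ T + 1) → ∀ a : ℝ, 0 ≤ a → a ≤ c →
    ER (SB T M (JJ T)) (fun f => ‖SQ T (tw ((1 / 2 + a / Real.log T : ℝ) : ℂ) f)‖ ^ 4 *
        ‖AA T M (JJ T) (k - 2) g h (tw ((1 / 2 + a / Real.log T : ℝ) : ℂ) f)‖ ^ 2) ≤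
      Real.exp (C₀ * M) * (1 + c) ^ C₀ * (Real.log T) ^ (k ^ 2) * ∏ j ∈ h, ss M (JJ T) j

/-- (7) the normaliser, `1 ≤ k ≤ 2` (compare `prod_lower`, `DD_compare`, `DD_ge_one`) -/
def StDD2 : Prop := (∃ C : ℝ, 0 < C ∧ ∀ c β : ℝ, 0 < β → β ≤ 1 → 1 ≤ c * β → ∃ T₀ : ℝ, ∀ T, T₀ ≤ T →
      ∀ k : ℝ, 1 ≤ k → k ≤ 2 → (Real.log T) ^ (k ^ 2) ≤
        C * c ^ 4 * ∏ p ∈ PS 0 (Real.exp (β * Real.log T)), Dl k ((p : ℝ) ^ (-(1 / 2 + c / Real.log T)))) ∧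
    (∃ C : ℝ, 0 < C ∧ ∀ c β : ℝ, 0 < β → β ≤ 1 → 1 ≤ c * β → ∃ T₀ : ℝ, ∀ T, T₀ ≤ T →
      ∀ k : ℝ, 1 ≤ k → k ≤ 2 →
      ∏ p ∈ PS 0 (Real.exp (β * Real.log T)), Dl k ((p : ℝ) ^ (-(1 / 2 + c / Real.log T))) ≤
        DD k (1 / 2 + c / Real.log T) ∧
      DD k (1 / 2 + c / Real.log T) ≤ Real.exp (C * Real.exp (-(c * β))) *
        ∏ p ∈ PS 0 (Real.exp (β * Real.log T)), Dl k ((p : ℝ) ^ (-(1 / 2 + c / Real.log T)))) ∧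
    ∀ k σ : ℝ, 1 ≤ k → k ≤ 2 → 1 / 2 < σ → 1 ≤ DD k σ

/-- (8) the normaliser near the critical line, `1 ≤ k ≤ 2` (compare `DD_asymp`, `aK_pos`) -/
def StArith2 : Prop := (∀ k : ℝ, 1 ≤ k → k ≤ 2 → 0 < aK k) ∧
    ∀ ε : ℝ, 0 < ε → ∃ d : ℝ, 0 < d ∧ ∀ σ : ℝ, 1 / 2 < σ → σ < 1 / 2 + d →
    ∀ k : ℝ, 1 ≤ k → k ≤ 2 → |DD k σ / (aK k * (1 / (2 * σ - 1)) ^ (k ^ 2)) - 1| ≤ ε

/-- (9) the second moment ingredients, `1 ≤ k ≤ 2` (compare `ing` in Ing.lean) -/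
def StIng2 : Prop := ∃ C κ : ℝ, 0 < C ∧ 0 < κ ∧ ∀ δ : ℝ, 0 < δ → ∃ M₀ : ℕ, ∀ M : ℕ, M₀ ≤ M → ∀ c : ℝ,
    Real.exp (2 * M) ≤ c → c ≤ Real.exp (2 * (M + 1)) → ∃ T₀ : ℝ, 3 ≤ T₀ ∧ ∀ T, T₀ ≤ T →
    ∀ τ : ℝ, |τ| ≤ 2 * T → ∀ k : ℝ, 1 ≤ k → k ≤ 2 → Ing C κ δ M c T τ k

/-- (10) the fourth moment of `ζ - SQ` on the line, by convexity -/
def StConv4 : Prop := ∃ C κ : ℝ, 0 < C ∧ 0 < κ ∧ ∃ M₀ : ℕ, ∀ M : ℕ, M₀ ≤ M → ∀ c : ℝ, 0 ≤ c →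
    ∃ T₀ : ℝ, 3 ≤ T₀ ∧ ∀ T, T₀ ≤ T → ∀ k : ℝ, 1 ≤ k → k < 2 → ∀ g h : Finset ℕ,
    g ∪ h = Finset.range (JJ T + 1) →
    EF T (fun t => ‖riemannZeta (pt c T t) - SQ T (fs (pt c T t))‖ ^ 4 *
      ‖AA T M (JJ T) (k - 2) g h (fs (pt c T t))‖ ^ 2) ≤
      Real.exp (-(c / 2)) * (Real.exp (C * M) * (Real.log T) ^ (k ^ 2) * ∏ j ∈ h, ss M (JJ T) j) +
        T ^ (-κ)

/-- (11) an average over centres of nonnegative functions is bounded by the long mean -/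
def StAVEF : Prop := ∀ η : ℝ, 0 < η → ∃ C : ℝ, 0 < C ∧ ∃ T₀ : ℝ, 3 ≤ T₀ ∧ ∀ T, T₀ ≤ T →
    ∀ F : ℝ → ℝ, Continuous F → (∀ t, 0 ≤ F t) → (∀ t, F t ≤ T ^ 4 * (1 + |t|) ^ 10) →
    ∀ a b : ℝ, -(3 / 2) * T ≤ a → b ≤ 3 / 2 * T → η * T ≤ b - a →
    AV T a b F ≤ C * EF T F + T ^ (-1 : ℝ)

/-- (12) the fourth moment ingredients -/
def StU4 : Prop := ∃ C κ : ℝ, 0 < C ∧ 0 < κ ∧ ∀ δ η : ℝ, 0 < δ → 0 < η → ∃ M₀ : ℕ, ∀ M : ℕ, M₀ ≤ M →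
    ∀ c : ℝ, Real.exp (2 * M) ≤ c → c ≤ Real.exp (2 * (M + 1)) → ∃ T₀ : ℝ, 3 ≤ T₀ ∧ ∀ T, T₀ ≤ T →
    ∀ a b : ℝ, -(3 / 2) * T ≤ a → b ≤ 3 / 2 * T → η * T ≤ b - a → ∀ k : ℝ, 1 ≤ k → k < 2 →
    AV T a b (fun t => ‖riemannZeta (pt c T t)‖ ^ 4 *
      ‖AA T M (JJ T) (k - 2) (Finset.range (JJ T + 1)) ∅ (fs (pt c T t))‖ ^ 2) ≤
      (1 + δ) * DJ k (1 / 2 + c / Real.log T) T M (JJ T) ∧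
    ∀ g h : Finset ℕ, g ∪ h = Finset.range (JJ T + 1) →
      AV T a b (fun t => ‖riemannZeta (pt c T t)‖ ^ 4 *
        ‖AA T M (JJ T) (k - 2) g h (fs (pt c T t))‖ ^ 2) ≤
        Real.exp (C * M) * DJ k (1 / 2 + c / Real.log T) T M (JJ T) * ∏ j ∈ h, ss M (JJ T) j +
          T ^ (-κ)

/-- (13) upper bound for averages over centres -/
def StUp2 : Prop := ∀ ε η : ℝ, 0 < ε → 0 < η → ∃ c₀ : ℝ, 1 ≤ c₀ ∧ ∀ c, c₀ ≤ c → ∃ T₀ : ℝ, 3 ≤ T₀ ∧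
    ∀ T, T₀ ≤ T → ∀ a b : ℝ, -(3 / 2) * T ≤ a → b ≤ 3 / 2 * T → η * T ≤ b - a →
    ∀ k : ℝ, 1 ≤ k → k < 2 →
    AV T a b (fun t => ‖riemannZeta (pt c T t)‖ ^ (2 * k)) ≤ (1 + ε) * DD k (1 / 2 + c / Real.log T)

/-- (14) lower bound for every centre -/
def StLo2 : Prop := ∀ ε : ℝ, 0 < ε → ∃ c₀ : ℝ, 1 ≤ c₀ ∧ ∀ c, c₀ ≤ c → ∃ T₀ : ℝ, 3 ≤ T₀ ∧
    ∀ T, T₀ ≤ T → ∀ τ : ℝ, |τ| ≤ 2 * T → ∀ k : ℝ, 1 ≤ k → k ≤ 2 →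
    (1 - ε) * DD k (1 / 2 + c / Real.log T) ≤ EG T τ (fun t => ‖riemannZeta (pt c T t)‖ ^ (2 * k))

/-- (15) from averages over centres to the sharp mean -/
def StSharp2 : Prop := ∀ ε η : ℝ, 0 < ε → 0 < η → ∃ T₀ : ℝ, 3 ≤ T₀ ∧ ∀ T, T₀ ≤ T →
    ∀ F : ℝ → ℝ, Continuous F → (∀ t, 0 ≤ F t) → (∀ t, F t ≤ T ^ 4 * (1 + |t|) ^ 10) →
    ∀ D : ℝ, 1 / 2 ≤ D → ∀ a b : ℝ, -T ≤ a → b ≤ T → η * T ≤ b - a →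
    ((∀ a' b' : ℝ, -(3 / 2) * T ≤ a' → b' ≤ 3 / 2 * T → η * T ≤ b' - a' → AV T a' b' F ≤ (1 + ε) * D) →
      (b - a)⁻¹ * (∫ t in a..b, F t) ≤ (1 + 2 * ε) * D) ∧
    ((∀ τ : ℝ, |τ| ≤ 2 * T → (1 - ε) * D ≤ EG T τ F) →
      (1 - 2 * ε) * D ≤ (b - a)⁻¹ * (∫ t in a..b, F t))

/-- (16) the asymptotics for `1 ≤ k < 2` -/
def StNear2 : Prop := ∀ ε : ℝ, 0 < ε → ∃ c₀ : ℝ, 0 < c₀ ∧ ∀ c : ℝ, c₀ ≤ c → ∃ T₀ : ℝ, 3 ≤ T₀ ∧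
    ∀ T : ℝ, T₀ ≤ T → ∀ a b : ℝ, -T ≤ a → b ≤ T → ε * T ≤ b - a →
    ∀ k : ℝ, 1 ≤ k → k < 2 →
    |((b - a)⁻¹ * ∫ t in a..b, ‖riemannZeta (1 / 2 + c / Real.log T + t * I)‖ ^ (2 * k)) /
      (aK k * (Real.log T / (2 * c)) ^ (k ^ 2)) - 1| ≤ ε

/-- (17) the final theorem: all orders `0 < k < 2`; for `k < 1` also on intervals of length
`T^{49/50}` -/
def StNearAll : Prop := ∀ ε : ℝ, 0 < ε → ∃ c₀ : ℝ, 0 < c₀ ∧ ∀ c : ℝ, c₀ ≤ c → ∃ T₀ : ℝ, 3 ≤ T₀ ∧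
    ∀ T : ℝ, T₀ ≤ T → ∀ a b : ℝ, -T ≤ a → b ≤ T → T ^ (49 / 50 : ℝ) ≤ b - a →
    ∀ k : ℝ, 0 < k → k < 2 → (1 ≤ k → ε * T ≤ b - a) →
    |((b - a)⁻¹ * ∫ t in a..b, ‖riemannZeta (1 / 2 + c / Real.log T + t * I)‖ ^ (2 * k)) /
      (aK k * (Real.log T / (2 * c)) ^ (k ^ 2)) - 1| ≤ ε

end K2
end Pool.Agent.Lib.MP_973905_nt
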