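import Pool.Agent.Lib.MP_973905_nt.K2.Stmts

/-! Pointwise inequalities for `1 ≤ k ≤ 2` (module K2-1). -/

namespace Pool.Agent.Lib.MP_973905_nt
namespace K2

open Complex

namespace Point2

lemma Ntr_tail2 (l : ℕ) {α : ℝ} (hα : |α| ≤ 2) (z : ℂ) :
    ‖cexp (α * z) - Ntr l α z‖ ≤ Real.exp (-l) * Real.exp (6 * ‖z‖) := by
  have h1 := norm_exp_sub_sum_le_exp_norm_sub_sum (α * z) (l + 1)
  have h2 := exp_tail (l + 1) (norm_nonneg (α * z))
  have h3 : ‖(α : ℂ) * z‖ ≤ 2 * ‖z‖ := by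
    rw [norm_mul, norm_real, Real.norm_eq_abs]
    exact mul_le_mul_of_nonneg_right hα (norm_nonneg _)
  refine (h1.trans h2).trans ?_
  have h4 : 3 * ‖(α : ℂ) * z‖ ≤ 6 * ‖z‖ := by linarith
  have h5 : Real.exp (-((l + 1 : ℕ) : ℝ)) ≤ Real.exp (-(l : ℝ)) := by
    apply Real.exp_le_exp.2
    push_cast
    linarith
  exact mul_le_mul h5 (Real.exp_le_exp.2 h4) (Real.exp_pos _).le (Real.exp_pos _).le

lemma norm_Ntr_le2 (l : ℕ) {α : ℝ} (hα : |α| ≤ 2) (z : ℂ) : ‖Ntr l α z‖ ≤ Real.exp (2 * ‖z‖) := by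
  have h3 : ‖(α : ℂ) * z‖ ≤ 2 * ‖z‖ := by
    rw [norm_mul, norm_real, Real.norm_eq_abs]
    exact mul_le_mul_of_nonneg_right hα (norm_nonneg _)
  calc ‖Ntr l α z‖ ≤ ∑ i ∈ Finset.range (l + 1), (2 * ‖z‖) ^ i / i.factorial := by
        refine (norm_sum_le _ _).trans (Finset.sum_le_sum fun i _ => ?_)
        rw [norm_div, norm_pow, norm_natCast]
        gcongr
    _ ≤ Real.exp (2 * ‖z‖) := Real.sum_le_exp_of_nonneg (by positivity) _

/-- On the good set the truncated exponentials behave like exponentials. -/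
lemma Ntr_ratio2 (l : ℕ) {α K : ℝ} (hα : |α| ≤ 2) (hK : 1 ≤ K) (hl : 10 * K ≤ l) {z : ℂ}
    (hz : ‖z‖ ≤ K) :
    (1 - Real.exp (-K)) * Real.exp (α * z.re) ≤ ‖Ntr l α z‖ ∧
      ‖Ntr l α z‖ ≤ (1 + Real.exp (-K)) * Real.exp (α * z.re) := by
  have h1 := Ntr_tail2 l hα z
  have h2 : ‖cexp (α * z)‖ = Real.exp (α * z.re) := by
    rw [norm_exp, re_ofReal_mul]
  have h3 : Real.exp (-l) * Real.exp (6 * ‖z‖) ≤ Real.exp (-K) * Real.exp (α * z.re) := by
    rw [← Real.exp_add, ← Real.exp_add]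
    apply Real.exp_le_exp.mpr
    have h4 : -(2 * K) ≤ α * z.re := by
      have h5 : |α * z.re| ≤ 2 * K := by
        rw [abs_mul]
        exact mul_le_mul hα ((abs_re_le_norm z).trans hz) (abs_nonneg _) (by norm_num)
      linarith [neg_abs_le (α * z.re)]
    linarith
  constructor
  · have h5 := norm_sub_norm_le (cexp (α * z)) (Ntr l α z)
    rw [h2] at h5
    linarith
  · have h5 := norm_sub_norm_le (Ntr l α z) (cexp (α * z))
    rw [h2, norm_sub_rev] at h5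
    linarith

end Point2

open Point2

theorem stPoint2 : StPoint2 := by
  intro l r k K hk1 hk2 hK hl z
  have h := always_ratio l r (k := k - 1) (by linarith) (by linarith) hK hl z
  have e1 : k - 1 - 1 = k - 2 := by ring
  have e2 : 1 - (k - 1) = 2 - k := by ring
  rw [e1, e2, mul_comm] at h
  exact h

theorem stPoint3 : StPoint3 := by
  intro l k K hk1 hk2 hK hl z hz
  have ha : |k - 1| ≤ 2 := by rw [abs_le]; constructor <;> linarith
  have hb : |k| ≤ 2 := by rw [abs_le]; constructor <;> linarith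
  obtain ⟨-, a2⟩ := Ntr_ratio2 l ha (by linarith) hl hz
  obtain ⟨b1, -⟩ := Ntr_ratio2 l hb (by linarith) hl hz
  obtain ⟨e, he⟩ : ∃ e, e = Real.exp (-K) := ⟨_, rfl⟩
  rw [← he] at a2 b1 ⊢
  have he0 : 0 < e := he ▸ Real.exp_pos _
  have he1 : e ≤ 1 / 2 := by
    rw [he]
    have h1 : Real.exp (-K) ≤ Real.exp (-1) := Real.exp_le_exp.2 (by linarith)
    have h2 : Real.exp (-1) ≤ 1 / 2 := by
      rw [Real.exp_neg, ← one_div]
      apply one_div_le_one_div_of_le (by norm_num)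
      have := Real.add_one_le_exp 1
      linarith
    linarith
  obtain ⟨A, hA⟩ : ∃ A, A = ‖Ntr l (k - 1) z‖ := ⟨_, rfl⟩
  obtain ⟨B, hB⟩ : ∃ B, B = ‖Ntr l k z‖ := ⟨_, rfl⟩
  rw [← hA] at a2
  rw [← hB] at b1
  have hk0 : 0 < k := by linarith
  have hB0 : 0 < B := lt_of_lt_of_le (mul_pos (by linarith) (Real.exp_pos _)) b1
  have hexp0 : 0 ≤ 1 - 1 / k := by
    have : 1 / k ≤ 1 := by rw [div_le_one hk0]; exact hk1
    linarith
  have hexp1 : 1 - 1 / k ≤ 1 := by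
    have : 0 < 1 / k := by positivity
    linarith
  have h1 : (B ^ 2) ^ (1 - 1 / (2 * k)) = B * B ^ (1 - 1 / k) := by
    rw [← Real.rpow_natCast, ← Real.rpow_mul hB0.le]
    have e1 : ((2 : ℕ) : ℝ) * (1 - 1 / (2 * k)) = 1 + (1 - 1 / k) := by
      push_cast
      field_simp
      ring
    rw [e1, Real.rpow_add hB0, Real.rpow_one]
  have h2 : (1 - e) * Real.exp ((k - 1) * z.re) ≤ B ^ (1 - 1 / k) := by
    have h3 : ((1 - e) * Real.exp (k * z.re)) ^ (1 - 1 / k) ≤ B ^ (1 - 1 / k) :=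
      Real.rpow_le_rpow (mul_nonneg (by linarith) (Real.exp_pos _).le) b1 hexp0
    refine le_trans ?_ h3
    rw [Real.mul_rpow (by linarith) (Real.exp_pos _).le, ← Real.exp_mul]
    have e2 : k * z.re * (1 - 1 / k) = (k - 1) * z.re := by
      field_simp
    rw [e2]
    apply mul_le_mul_of_nonneg_right _ (Real.exp_pos _).le
    calc 1 - e = (1 - e) ^ (1 : ℝ) := (Real.rpow_one _).symm
      _ ≤ (1 - e) ^ (1 - 1 / k) := Real.rpow_le_rpow_of_exponent_ge (by linarith) (by linarith) hexp1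
  show ‖Ntr l (k - 1) z‖ * ‖Ntr l k z‖ ≤ (1 + 4 * e) * (‖Ntr l k z‖ ^ 2) ^ (1 - 1 / (2 * k))
  rw [← hA, ← hB, h1]
  have h4 : A ≤ (1 + 4 * e) * B ^ (1 - 1 / k) := by
    have h5 : 1 + e ≤ (1 + 4 * e) * (1 - e) := by nlinarith
    calc A ≤ (1 + e) * Real.exp ((k - 1) * z.re) := a2
      _ ≤ (1 + 4 * e) * (1 - e) * Real.exp ((k - 1) * z.re) :=
          mul_le_mul_of_nonneg_right h5 (Real.exp_pos _).le
      _ = (1 + 4 * e) * ((1 - e) * Real.exp ((k - 1) * z.re)) := by ring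
      _ ≤ _ := mul_le_mul_of_nonneg_left h2 (by linarith)
  calc A * B ≤ (1 + 4 * e) * B ^ (1 - 1 / k) * B := mul_le_mul_of_nonneg_right h4 hB0.le
    _ = _ := by ring

end K2
end Pool.Agent.Lib.MP_973905_nt
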