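import Pool.Agent.Lib.MP_973905_nt.K2.Stmts
import Pool.Agent.Lib.MP_973905_nt.Arith

/-! Module Arith2: asymptotics of the normalising series `DD k σ` as `σ → 1/2+`, uniformly in
`k ∈ [1, 2]`, and positivity of `a(k)`. -/

namespace Pool.Agent.Lib.MP_973905_nt
namespace K2

open Filter Topology CK DDaux Arith

namespace Arith2

/-! ### Coefficients -/

lemma bc_le2 {k : ℝ} (hk : 0 < k) (hk2 : k ≤ 2) (m : ℕ) : bc k m ≤ m + 1 := by
  induction m with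
  | zero => rw [bc_zero hk]; simp
  | succ m ih =>
    rw [bc_succ hk]
    have h1 : 0 ≤ (k + m) / ((m : ℝ) + 1) := by positivity
    calc bc k m * ((k + m) / (m + 1)) ≤ ((m : ℝ) + 1) * ((k + m) / (m + 1)) :=
          mul_le_mul_of_nonneg_right ih h1
      _ = k + m := by field_simp
      _ ≤ _ := by push_cast; linarith

lemma bc_sq_le {k : ℝ} (hk : 0 < k) (hk2 : k ≤ 2) (m : ℕ) : bc k m ^ 2 ≤ ((m : ℝ) + 1) ^ 2 :=
  pow_le_pow_left₀ (bc_pos hk m).le (bc_le2 hk hk2 m) 2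

lemma summable_sq_geom {x : ℝ} (hx0 : 0 ≤ x) (hx : x < 1) :
    Summable fun m : ℕ => ((m : ℝ) + 1) ^ 2 * x ^ m := by
  have hn : ‖x‖ < 1 := by rwa [Real.norm_eq_abs, abs_of_nonneg hx0]
  have h2 := summable_pow_mul_geometric_of_norm_lt_one 2 hn
  have h1 := summable_pow_mul_geometric_of_norm_lt_one 1 hn
  have h0 := summable_pow_mul_geometric_of_norm_lt_one 0 hn
  refine ((h2.add (h1.mul_left 2)).add h0).congr fun m => ?_
  ring

lemma summable_Fk2 {k x : ℝ} (hk : 0 < k) (hk2 : k ≤ 2) (hx0 : 0 ≤ x) (hx : x < 1) :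
    Summable fun m : ℕ => bc k m ^ 2 * x ^ m := by
  refine Summable.of_nonneg_of_le (fun m => by positivity) (fun m => ?_) (summable_sq_geom hx0 hx)
  exact mul_le_mul_of_nonneg_right (bc_sq_le hk hk2 m) (by positivity)

/-- `∑ C(m+2, 2) x^m = (1-x)^{-3} ≤ 8`. -/
lemma choose_sum {x : ℝ} (hx0 : 0 ≤ x) (hx : x ≤ 1 / 2) :
    ∃ S : ℝ, HasSum (fun m : ℕ => ((m + 2).choose 2 : ℝ) * x ^ m) S ∧ S ≤ 8 := by
  have hn : ‖x‖ < 1 := by rw [Real.norm_eq_abs, abs_of_nonneg hx0]; linarith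
  refine ⟨_, hasSum_choose_mul_geometric_of_norm_lt_one 2 hn, ?_⟩
  have h1 : (1 / 2 : ℝ) ^ 3 ≤ (1 - x) ^ 3 := pow_le_pow_left₀ (by norm_num) (by linarith) 3
  rw [div_le_iff₀ (by positivity)]
  norm_num at h1 ⊢
  linarith

lemma choose_two (m : ℕ) : ((m + 2).choose 2 : ℝ) = ((m : ℝ) + 2) * (m + 1) / 2 := by
  rw [Nat.cast_choose_two]
  push_cast
  ring

lemma Fk_bounds2 {k x : ℝ} (hk : 0 < k) (hk2 : k ≤ 2) (hx0 : 0 ≤ x) (hx : x ≤ 1 / 2) :
    1 + k ^ 2 * x ≤ Fk k x ∧ Fk k x ≤ 1 + k ^ 2 * x + 72 * x ^ 2 := by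
  have hs := summable_Fk2 hk hk2 hx0 (by linarith : x < 1)
  constructor
  · have h := hs.sum_le_tsum (Finset.range 2) (fun m _ => by positivity)
    simp only [Finset.sum_range_succ, Finset.sum_range_zero] at h
    rw [show (1 : ℕ) = 0 + 1 by rfl, bc_succ hk, bc_zero hk] at h
    simpa [Fk] using h
  · have e : Fk k x = ∑ m ∈ Finset.range 2, bc k m ^ 2 * x ^ m +
        ∑' m : ℕ, bc k (m + 2) ^ 2 * x ^ (m + 2) := (hs.sum_add_tsum_nat_add 2).symm
    have hs' : Summable fun m : ℕ => bc k (m + 2) ^ 2 * x ^ (m + 2) :=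
      (summable_nat_add_iff 2).mpr hs
    obtain ⟨S, hS, hS8⟩ := choose_sum hx0 hx
    have h2 : ∑' m : ℕ, bc k (m + 2) ^ 2 * x ^ (m + 2) ≤
        ∑' m : ℕ, (9 * x ^ 2) * (((m + 2).choose 2 : ℝ) * x ^ m) := by
      refine hs'.tsum_le_tsum (fun m => ?_) (hS.summable.mul_left _)
      have h3 := bc_sq_le hk hk2 (m + 2)
      have h4 : (((m + 2 : ℕ) : ℝ) + 1) ^ 2 ≤ 9 * ((m + 2).choose 2 : ℝ) := by
        rw [choose_two]
        push_cast
        have : (0 : ℝ) ≤ m := by positivity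
        nlinarith
      calc bc k (m + 2) ^ 2 * x ^ (m + 2) ≤ (9 * ((m + 2).choose 2 : ℝ)) * x ^ (m + 2) :=
            mul_le_mul_of_nonneg_right (h3.trans h4) (by positivity)
        _ = _ := by ring
    rw [tsum_mul_left, hS.tsum_eq] at h2
    have h5 : 9 * x ^ 2 * S ≤ 9 * x ^ 2 * 8 := by gcongr
    have h6 : ∑ m ∈ Finset.range 2, bc k m ^ 2 * x ^ m = 1 + k ^ 2 * x := by
      simp only [Finset.sum_range_succ, Finset.sum_range_zero]
      rw [show (1 : ℕ) = 0 + 1 by rfl, bc_succ hk, bc_zero hk]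
      simp
    rw [e, h6]
    linarith

lemma Fk_one_le {k x : ℝ} (hk : 0 < k) (hk2 : k ≤ 2) (hx0 : 0 ≤ x) (hx : x ≤ 1 / 2) :
    1 ≤ Fk k x := by
  have h := (Fk_bounds2 hk hk2 hx0 hx).1
  have : 0 ≤ k ^ 2 * x := by positivity
  linarith

lemma lf_pos2 {k x : ℝ} (hk : 0 < k) (hk2 : k ≤ 2) (hx0 : 0 ≤ x) (hx : x ≤ 1 / 2) : 0 < lf k x := by
  have h2 := Fk_one_le hk hk2 hx0 hx
  have h3 : 0 < 1 - x := by linarith
  unfold lf
  positivity

lemma log_lf_eq {k x : ℝ} (hk : 0 < k) (hk2 : k ≤ 2) (hx0 : 0 ≤ x) (hx : x ≤ 1 / 2) :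
    Real.log (lf k x) = k ^ 2 * Real.log (1 - x) + Real.log (Fk k x) := by
  have h2 := Fk_one_le hk hk2 hx0 hx
  have h3 : 0 < 1 - x := by linarith
  rw [lf, Real.log_mul (by positivity) (by linarith), Real.log_rpow h3]

lemma sq_le4 {k : ℝ} (hk : 0 < k) (hk2 : k ≤ 2) : k ^ 2 ≤ 4 := by nlinarith

lemma abs_log_lf2 {k x : ℝ} (hk : 0 < k) (hk2 : k ≤ 2) (hx0 : 0 ≤ x) (hx : x ≤ 1 / 2) :
    |Real.log (lf k x)| ≤ 72 * x ^ 2 := by
  obtain ⟨h1, h2⟩ := Fk_bounds2 hk hk2 hx0 hx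
  have hk4 := sq_le4 hk hk2
  have hkx : 0 ≤ k ^ 2 * x := by positivity
  have hF : 0 < Fk k x := by linarith
  have h3 : 0 < 1 - x := by linarith
  have hx2 : 0 ≤ x ^ 2 := by positivity
  have hk20 : 0 ≤ k ^ 2 := by positivity
  have h4 : Real.log (1 - x) ≤ -x := by
    have := Real.log_le_sub_one_of_pos h3; linarith
  have h5 : -x - 2 * x ^ 2 ≤ Real.log (1 - x) := by
    have h8 := Real.one_sub_inv_le_log_of_pos h3
    have h9 : 1 - (1 - x)⁻¹ = -(x / (1 - x)) := by field_simp; ring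
    have h7 : x / (1 - x) ≤ x + 2 * x ^ 2 := by
      rw [div_le_iff₀ h3]
      nlinarith [mul_nonneg hx2 (by linarith : (0 : ℝ) ≤ 1 - 2 * x)]
    rw [h9] at h8
    linarith
  have h10 : Real.log (Fk k x) ≤ k ^ 2 * x + 72 * x ^ 2 := by
    have h11 := Real.log_le_sub_one_of_pos hF
    linarith
  have h13 : k ^ 2 * x - 16 * x ^ 2 ≤ Real.log (Fk k x) := by
    have h14 : Real.log (1 + k ^ 2 * x) ≤ Real.log (Fk k x) := Real.log_le_log (by linarith) h1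
    have h15 := Real.one_sub_inv_le_log_of_pos (show 0 < 1 + k ^ 2 * x by linarith)
    have h16 : k ^ 2 * x - (k ^ 2 * x) ^ 2 ≤ 1 - (1 + k ^ 2 * x)⁻¹ := by
      have h17 : 1 - (1 + k ^ 2 * x)⁻¹ = (k ^ 2 * x) / (1 + k ^ 2 * x) := by
        have : (1 + k ^ 2 * x) ≠ 0 := by linarith
        field_simp; ring
      rw [h17, le_div_iff₀ (by linarith)]
      have : 0 ≤ (k ^ 2 * x) ^ 3 := by positivity
      nlinarith
    have h18 : (k ^ 2 * x) ^ 2 ≤ 16 * x ^ 2 := by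
      have : (k ^ 2) ^ 2 ≤ 16 := by nlinarith
      calc (k ^ 2 * x) ^ 2 = (k ^ 2) ^ 2 * x ^ 2 := by ring
        _ ≤ 16 * x ^ 2 := mul_le_mul_of_nonneg_right this hx2
    linarith
  rw [log_lf_eq hk hk2 hx0 hx, abs_le]
  have h19 := mul_le_mul_of_nonneg_left h4 hk20
  have h20 := mul_le_mul_of_nonneg_left h5 hk20
  have h21 : k ^ 2 * x ^ 2 ≤ 4 * x ^ 2 := mul_le_mul_of_nonneg_right hk4 hx2
  constructor
  · nlinarith
  · nlinarith

lemma summable_log_lf2 {k : ℝ} (hk : 0 < k) (hk2 : k ≤ 2) :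
    Summable fun p : Nat.Primes => Real.log (lf k (((p : ℕ) : ℝ)⁻¹)) := by
  refine Summable.of_norm_bounded (g := fun p : Nat.Primes => 72 * (((p : ℕ) : ℝ)⁻¹) ^ 2)
    (summable_prime_sq.mul_left _) fun p => ?_
  rw [Real.norm_eq_abs]
  exact abs_log_lf2 hk hk2 (prime_inv p).1 (prime_inv p).2

lemma aK_exp2 {k : ℝ} (hk : 0 < k) (hk2 : k ≤ 2) :
    aK k = Real.exp (∑' p : Nat.Primes, Real.log (lf k (((p : ℕ) : ℝ)⁻¹))) := by
  rw [aK_eq]
  refine (Real.rexp_tsum_eq_tprod (fun p => ?_) (summable_log_lf2 hk hk2)).symm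
  exact lf_pos2 hk hk2 (prime_inv p).1 (prime_inv p).2

theorem aK_pos2 {k : ℝ} (hk : 0 < k) (hk2 : k ≤ 2) : 0 < aK k := by
  rw [aK_exp2 hk hk2]; exact Real.exp_pos _

/-! ### The Euler product of `DD` -/

lemma Dl_le2 {k x : ℝ} (hk : 0 < k) (hk2 : k ≤ 2) (hx0 : 0 ≤ x) (hx : x ^ 2 ≤ 1 / 2) :
    Dl k x ≤ Real.exp (40 * x ^ 2) := by
  have hx1 : x < 1 := by nlinarith
  rw [Dl_eq hk hx0 hx1]
  obtain ⟨-, h2⟩ := Fk_bounds2 hk hk2 (sq_nonneg x) hx
  have hk4 := sq_le4 hk hk2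
  have h3 : (x ^ 2) ^ 2 ≤ x ^ 2 * (1 / 2) := by
    rw [sq (x ^ 2)]
    exact mul_le_mul_of_nonneg_left hx (sq_nonneg x)
  have h4 : k ^ 2 * x ^ 2 ≤ 4 * x ^ 2 := mul_le_mul_of_nonneg_right hk4 (sq_nonneg x)
  have h5 := Real.add_one_le_exp (40 * x ^ 2)
  linarith

theorem DD_hasProd2 {k σ : ℝ} (hk : 0 < k) (hk2 : k ≤ 2) (hσ : 1 / 2 < σ) :
    HasProd (fun p : Nat.Primes => Dl k ((p : ℝ) ^ (-σ))) (DD k σ) := by
  set f : ℕ → ℝ := fun n => (dk k n) ^ 2 * (n : ℝ) ^ (-(2 * σ)) with hf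
  have hfnn : ∀ n, 0 ≤ f n := fun n => by simp only [hf]; positivity
  have hf0 : f 0 = 0 := by
    simp only [hf, Nat.cast_zero]
    rw [Real.zero_rpow (by linarith), mul_zero]
  have hf1 : f 1 = 1 := by
    simp [hf, dk]
  have hmul : ∀ {m n : ℕ}, Nat.Coprime m n → f (m * n) = f m * f n := by
    intro m n hmn
    rcases Nat.eq_zero_or_pos m with rfl | hm
    · rw [zero_mul, hf0, zero_mul]
    rcases Nat.eq_zero_or_pos n with rfl | hn
    · rw [mul_zero, hf0, mul_zero]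
    have h1 : dk k (m * n) = dk k m * dk k n := by
      unfold dk
      rw [Nat.factorization_mul_of_coprime hmn]
      exact Finsupp.prod_add_index_of_disjoint
        (by simpa using hmn.disjoint_primeFactors) _
    simp only [hf]
    rw [h1, Nat.cast_mul, Real.mul_rpow (by positivity) (by positivity)]
    ring
  have hpow : ∀ p : ℕ, p.Prime → ∀ e : ℕ, f (p ^ e) =
      ((ascPochhammer ℝ e).eval k / e.factorial) ^ 2 * ((p : ℝ) ^ (-σ)) ^ (2 * e) := by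
    intro p hp e
    have hpp : (0 : ℝ) < (p : ℝ) := by exact_mod_cast hp.pos
    simp only [hf]
    have h1 : dk k (p ^ e) = (ascPochhammer ℝ e).eval k / e.factorial := by
      unfold dk
      rw [hp.factorization_pow, Finsupp.prod_single_index]
      simp
    rw [h1]
    congr 1
    rw [Nat.cast_pow, ← Real.rpow_natCast, ← Real.rpow_natCast, ← Real.rpow_mul hpp.le,
      ← Real.rpow_mul hpp.le]
    congr 1
    push_cast
    ring
  have hloc : ∀ p : ℕ, p.Prime → HasSum (fun e => f (p ^ e)) (Dl k ((p : ℝ) ^ (-σ))) := by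
    intro p hp
    have hx0 : 0 ≤ (p : ℝ) ^ (-σ) := by positivity
    have hx1 : (p : ℝ) ^ (-σ) < 1 :=
      Real.rpow_lt_one_of_one_lt_of_neg (by exact_mod_cast hp.one_lt) (by linarith)
    have h := Dl_hasSum hk hx0 hx1
    simp only [hpow p hp]
    exact h
  have hlocn : ∀ {p : ℕ}, p.Prime → Summable fun n => ‖f (p ^ n)‖ := by
    intro p hp
    refine (hloc p hp).summable.congr fun n => ?_
    rw [Real.norm_eq_abs, abs_of_nonneg (hfnn _)]
  have hs2 : Summable fun n : ℕ => (n : ℝ) ^ (-(2 * σ)) :=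
    Real.summable_nat_rpow.mpr (by linarith)
  have hsum0 : Summable f := by
    refine summable_of_sum_range_le (c := Real.exp (40 * ∑' n : ℕ, (n : ℝ) ^ (-(2 * σ)))) hfnn
      fun N => ?_
    obtain ⟨h1, h2⟩ := EulerProduct.summable_and_hasSum_smoothNumbers_prod_primesBelow_tsum hf1
      hmul hlocn N
    have h3 : ∑ i ∈ Finset.range N, f i ≤ ∏ p ∈ N.primesBelow, ∑' n : ℕ, f (p ^ n) := by
      classical
      have h4 : ∑ i ∈ Finset.range N, f i = ∑ i ∈ (Finset.range N).filter (fun i => i ≠ 0), f i := by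
        rw [Finset.sum_filter]
        refine Finset.sum_congr rfl fun i _ => ?_
        by_cases h : i = 0
        · simp [h, hf0]
        · simp [h]
      have h5 : ∀ i ∈ (Finset.range N).filter (fun i => i ≠ 0), i ∈ N.smoothNumbers := by
        intro i hi
        rw [Finset.mem_filter, Finset.mem_range] at hi
        exact Nat.mem_smoothNumbers_of_lt (Nat.pos_of_ne_zero hi.2) hi.1
      rw [h4, ← h2.tsum_eq, ← Finset.sum_attach]
      have h6 := (h2.summable).sum_le_tsum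
        (((Finset.range N).filter (fun i => i ≠ 0)).attach.map
          ⟨fun i => (⟨i.1, h5 i.1 i.2⟩ : N.smoothNumbers), fun a b hab => by
            ext; simpa using congrArg (fun z : N.smoothNumbers => (z : ℕ)) hab⟩)
        (fun i _ => hfnn _)
      rw [Finset.sum_map] at h6
      exact h6
    refine h3.trans ?_
    have h7 : ∀ p ∈ N.primesBelow, ∑' n : ℕ, f (p ^ n) ≤
        Real.exp (40 * (p : ℝ) ^ (-(2 * σ))) := by
      intro p hp
      have hpp := Nat.prime_of_mem_primesBelow hp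
      rw [(hloc p hpp).tsum_eq]
      have hx0 : 0 ≤ (p : ℝ) ^ (-σ) := by positivity
      have e : ((p : ℝ) ^ (-σ)) ^ 2 = (p : ℝ) ^ (-(2 * σ)) := by
        rw [← Real.rpow_natCast, ← Real.rpow_mul (by positivity)]
        congr 1
        push_cast
        ring
      have h8 := xp_bounds hσ.le ⟨p, hpp⟩
      have h9 := Dl_le2 hk hk2 hx0 (by rw [e]; exact h8.2.2)
      rwa [e] at h9
    calc ∏ p ∈ N.primesBelow, ∑' n : ℕ, f (p ^ n)
        ≤ ∏ p ∈ N.primesBelow, Real.exp (40 * (p : ℝ) ^ (-(2 * σ))) :=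
          Finset.prod_le_prod (fun p _ => tsum_nonneg fun n => hfnn _) h7
      _ = Real.exp (40 * ∑ p ∈ N.primesBelow, (p : ℝ) ^ (-(2 * σ))) := by
          rw [← Real.exp_sum, Finset.mul_sum]
      _ ≤ _ := by
          apply Real.exp_le_exp.mpr
          gcongr
          exact hs2.sum_le_tsum _ fun n _ => by positivity
  have hsum : Summable fun n => ‖f n‖ := by
    refine hsum0.congr fun n => ?_
    rw [Real.norm_eq_abs, abs_of_nonneg (hfnn _)]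
  have h := EulerProduct.eulerProduct_hasProd hf1 hmul hsum hf0
  have hfun : (fun p : Nat.Primes => Dl k (((p : ℕ) : ℝ) ^ (-σ))) =
      fun p : Nat.Primes => ∑' e, f ((p : ℕ) ^ e) := by
    funext p
    exact ((hloc p p.2).tsum_eq).symm
  rw [DD, hfun]
  exact h

/-! ### Lipschitz bounds -/

/-- the Lipschitz constant -/
noncomputable def LC : ℝ := ∑' m : ℕ, ((m : ℝ) + 1) ^ 2 * ((m : ℝ) * (1 / 2) ^ (m - 1))

lemma summable_LC : Summable fun m : ℕ => ((m : ℝ) + 1) ^ 2 * ((m : ℝ) * (1 / 2) ^ (m - 1)) := by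
  have hn : ‖(1 / 2 : ℝ)‖ < 1 := by norm_num
  have h3 := summable_pow_mul_geometric_of_norm_lt_one 3 hn
  have h2 := summable_pow_mul_geometric_of_norm_lt_one 2 hn
  have h1 := summable_pow_mul_geometric_of_norm_lt_one 1 hn
  refine (((h3.add (h2.mul_left 2)).add h1).mul_left 2).congr fun m => ?_
  rcases m with _ | m
  · simp
  · rw [Nat.add_sub_cancel, pow_succ]
    push_cast
    ring

lemma LC_nonneg : 0 ≤ LC := tsum_nonneg fun m => by positivity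

/-- Lipschitz bound for `F_k`. -/
lemma Fk_lip2 {k x y : ℝ} (hk : 0 < k) (hk2 : k ≤ 2) (hy0 : 0 ≤ y) (hyx : y ≤ x) (hx : x ≤ 1 / 2) :
    Fk k y ≤ Fk k x ∧ Fk k x - Fk k y ≤ LC * (x - y) := by
  have hx0 : 0 ≤ x := hy0.trans hyx
  have hsx := summable_Fk2 hk hk2 hx0 (by linarith)
  have hsy := summable_Fk2 hk hk2 hy0 (by linarith : y < 1)
  constructor
  · refine hsy.tsum_le_tsum (fun m => ?_) hsx
    exact mul_le_mul_of_nonneg_left (pow_le_pow_left₀ hy0 hyx m) (by positivity)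
  · have h1 : Fk k x - Fk k y = ∑' m : ℕ, (bc k m ^ 2 * x ^ m - bc k m ^ 2 * y ^ m) :=
      (hsx.tsum_sub hsy).symm
    rw [h1, LC, ← tsum_mul_right]
    refine (hsx.sub hsy).tsum_le_tsum (fun m => ?_) (summable_LC.mul_right _)
    have h3 := bc_sq_le hk hk2 m
    have h4 : 0 ≤ x ^ m - y ^ m := sub_nonneg.mpr (pow_le_pow_left₀ hy0 hyx m)
    have h5 : x ^ m - y ^ m ≤ (x - y) * (m : ℝ) * (1 / 2) ^ (m - 1) := by
      have h6 := abs_pow_sub_pow_le x y m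
      rw [abs_of_nonneg h4, abs_of_nonneg (sub_nonneg.mpr hyx), abs_of_nonneg hx0,
        abs_of_nonneg hy0, max_eq_left hyx] at h6
      refine h6.trans ?_
      have h7 : x ^ (m - 1) ≤ (1 / 2) ^ (m - 1) := pow_le_pow_left₀ hx0 hx _
      have h8 : 0 ≤ (x - y) * (m : ℝ) := mul_nonneg (sub_nonneg.mpr hyx) (by positivity)
      exact mul_le_mul_of_nonneg_left h7 h8
    calc bc k m ^ 2 * x ^ m - bc k m ^ 2 * y ^ m = bc k m ^ 2 * (x ^ m - y ^ m) := by ring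
      _ ≤ ((m : ℝ) + 1) ^ 2 * (x ^ m - y ^ m) := mul_le_mul_of_nonneg_right h3 h4
      _ ≤ ((m : ℝ) + 1) ^ 2 * ((x - y) * (m : ℝ) * (1 / 2) ^ (m - 1)) := by gcongr
      _ = _ := by ring

/-- Lipschitz bound for the logarithm of the local factor. -/
lemma log_lf_lip2 {k x y : ℝ} (hk : 0 < k) (hk2 : k ≤ 2) (hy0 : 0 ≤ y) (hyx : y ≤ x)
    (hx : x ≤ 1 / 2) : |Real.log (lf k y) - Real.log (lf k x)| ≤ (LC + 8) * (x - y) := by
  have hx0 : 0 ≤ x := hy0.trans hyx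
  obtain ⟨h1, h2⟩ := Fk_lip2 hk hk2 hy0 hyx hx
  have hFy1 := Fk_one_le hk hk2 hy0 (hyx.trans hx)
  have hFx1 := Fk_one_le hk hk2 hx0 hx
  have hk4 := sq_le4 hk hk2
  have hk20 : 0 ≤ k ^ 2 := by positivity
  obtain ⟨h3, h4⟩ := log_sub_le (c := 1) (by linarith : 0 < Fk k y) h1 (by linarith)
  obtain ⟨h5, h6⟩ := log_sub_le (u := 1 - y) (v := 1 - x) (c := 2) (by linarith) (by linarith)
    (by linarith)
  rw [log_lf_eq hk hk2 hx0 hx, log_lf_eq hk hk2 hy0 (hyx.trans hx), abs_le]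
  have h7 : k ^ 2 * (Real.log (1 - y) - Real.log (1 - x)) ≤ 4 * (2 * (1 - y - (1 - x))) :=
    mul_le_mul hk4 h6 h5 (by norm_num)
  have h8 : 0 ≤ k ^ 2 * (Real.log (1 - y) - Real.log (1 - x)) := mul_nonneg hk20 h5
  have h9 : 0 ≤ LC * (x - y) := mul_nonneg LC_nonneg (sub_nonneg.mpr hyx)
  constructor
  · nlinarith
  · nlinarith

/-- the dominating terms -/
noncomputable def gp2 (σ : ℝ) (p : Nat.Primes) : ℝ :=
  min ((LC + 8) * ((((p : ℕ) : ℝ)⁻¹) - xp σ p)) (144 * (((p : ℕ) : ℝ)⁻¹) ^ 2)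

lemma gp2_nonneg {σ : ℝ} (hσ : 1 / 2 ≤ σ) (p : Nat.Primes) : 0 ≤ gp2 σ p := by
  obtain ⟨h1, h2, h3⟩ := xp_bounds hσ p
  have := LC_nonneg
  exact le_min (mul_nonneg (by linarith) (by linarith)) (by positivity)

lemma gp2_le (σ : ℝ) (p : Nat.Primes) : gp2 σ p ≤ 144 * (((p : ℕ) : ℝ)⁻¹) ^ 2 := min_le_right _ _

lemma log_diff_le2 {k σ : ℝ} (hk : 0 < k) (hk2 : k ≤ 2) (hσ : 1 / 2 ≤ σ) (p : Nat.Primes) :
    |Real.log (lf k (xp σ p)) - Real.log (lf k (((p : ℕ) : ℝ)⁻¹))| ≤ gp2 σ p := by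
  obtain ⟨h1, h2, h3⟩ := xp_bounds hσ p
  obtain ⟨h4, h5⟩ := prime_inv p
  refine le_min (log_lf_lip2 hk hk2 h1 h2 h5) ?_
  have h6 := abs_log_lf2 hk hk2 h1 h3
  have h7 := abs_log_lf2 hk hk2 h4 h5
  have h8 : xp σ p ^ 2 ≤ (((p : ℕ) : ℝ)⁻¹) ^ 2 := pow_le_pow_left₀ h1 h2 2
  calc |Real.log (lf k (xp σ p)) - Real.log (lf k (((p : ℕ) : ℝ)⁻¹))|
      ≤ |Real.log (lf k (xp σ p))| + |Real.log (lf k (((p : ℕ) : ℝ)⁻¹))| := abs_sub _ _
    _ ≤ 144 * (((p : ℕ) : ℝ)⁻¹) ^ 2 := by linarith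

lemma summable_gp2 {σ : ℝ} (hσ : 1 / 2 ≤ σ) : Summable (gp2 σ) :=
  Summable.of_nonneg_of_le (gp2_nonneg hσ) (gp2_le σ) (summable_prime_sq.mul_left 144)

lemma gp2_tendsto : Tendsto (fun σ : ℝ => ∑' p : Nat.Primes, gp2 σ p) (𝓝[>] (1 / 2)) (𝓝 0) := by
  have h := tendsto_tsum_of_dominated_convergence (𝓕 := 𝓝[>] (1 / 2 : ℝ)) (f := fun σ p => gp2 σ p)
    (g := fun _ : Nat.Primes => (0 : ℝ)) (summable_prime_sq.mul_left 144) (fun p => ?_) ?_
  · simpa using h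
  · have hp : (0 : ℝ) < ((p : ℕ) : ℝ) := by exact_mod_cast p.2.pos
    have h1 : Tendsto (fun σ : ℝ => xp σ p) (𝓝[>] (1 / 2)) (𝓝 (((p : ℕ) : ℝ)⁻¹)) := by
      have h2 : Continuous fun σ : ℝ => xp σ p := by
        unfold xp
        exact continuous_const.rpow (by fun_prop) fun _ => Or.inl hp.ne'
      have h3 := (h2.tendsto (1 / 2)).mono_left (nhdsWithin_le_nhds (s := Set.Ioi (1 / 2)))
      rwa [xp_half] at h3
    have h4 : Tendsto (fun σ : ℝ => gp2 σ p) (𝓝[>] (1 / 2))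
        (𝓝 (min ((LC + 8) * ((((p : ℕ) : ℝ)⁻¹) - (((p : ℕ) : ℝ)⁻¹)))
          (144 * (((p : ℕ) : ℝ)⁻¹) ^ 2))) :=
      ((tendsto_const_nhds.sub h1).const_mul (LC + 8)).min tendsto_const_nhds
    have h5 : min ((LC + 8) * ((((p : ℕ) : ℝ)⁻¹) - (((p : ℕ) : ℝ)⁻¹)))
        (144 * (((p : ℕ) : ℝ)⁻¹) ^ 2) = 0 := by
      rw [sub_self, mul_zero]
      exact min_eq_left (by positivity)
    rwa [h5] at h4
  · filter_upwards [self_mem_nhdsWithin] with σ hσ p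
    have hσ' : 1 / 2 ≤ σ := le_of_lt hσ
    rw [Real.norm_eq_abs, abs_of_nonneg (gp2_nonneg hσ' p)]
    exact gp2_le σ p

lemma summable_log_xp {k σ : ℝ} (hk : 0 < k) (hk2 : k ≤ 2) (hσ : 1 / 2 < σ) :
    Summable fun p : Nat.Primes => Real.log (lf k (xp σ p)) := by
  refine Summable.of_norm_bounded (g := fun p : Nat.Primes => 72 * (((p : ℕ) : ℝ)⁻¹) ^ 2)
    (summable_prime_sq.mul_left _) fun p => ?_
  obtain ⟨h1, h2, h3⟩ := xp_bounds hσ.le p
  rw [Real.norm_eq_abs]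
  have h6 := abs_log_lf2 hk hk2 h1 h3
  have h8 : xp σ p ^ 2 ≤ (((p : ℕ) : ℝ)⁻¹) ^ 2 := pow_le_pow_left₀ h1 h2 2
  linarith

/-- the exact formula -/
lemma DD_eq2 {k σ : ℝ} (hk : 0 < k) (hk2 : k ≤ 2) (hσ : 1 / 2 < σ) :
    DD k σ = Real.exp (∑' p : Nat.Primes, Real.log (lf k (xp σ p))) * Zs (2 * σ) ^ (k ^ 2) := by
  have h1 := DD_hasProd2 hk hk2 hσ
  have hsum := summable_log_xp hk hk2 hσ
  have hpos : ∀ p : Nat.Primes, 0 < lf k (xp σ p) := fun p => by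
    obtain ⟨h1, h2, h3⟩ := xp_bounds hσ.le p
    exact lf_pos2 hk hk2 h1 h3
  have h2 : HasProd (fun p : Nat.Primes => lf k (xp σ p))
      (Real.exp (∑' p : Nat.Primes, Real.log (lf k (xp σ p)))) := by
    have h3 := hsum.hasSum.rexp
    have h4 : (fun p : Nat.Primes => lf k (xp σ p)) =
        Real.exp ∘ fun p : Nat.Primes => Real.log (lf k (xp σ p)) := by
      funext p
      exact (Real.exp_log (hpos p)).symm
    rw [h4]
    exact h3
  have h3 : HasProd (fun p : Nat.Primes => ((1 - xp σ p)⁻¹) ^ (k ^ 2)) (Zs (2 * σ) ^ (k ^ 2)) := by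
    refine hasProd_rpow (Zs_hasProd (by linarith)) (fun p => ?_) (Zs_pos (by linarith)).ne'
    obtain ⟨h1, h2, h3⟩ := xp_bounds hσ.le p
    have : (0 : ℝ) ≤ 1 - xp σ p := by linarith
    exact inv_nonneg.mpr this
  have h4 := h2.mul h3
  have h5 : (fun p : Nat.Primes => Dl k (((p : ℕ) : ℝ) ^ (-σ))) =
      fun p : Nat.Primes => lf k (xp σ p) * ((1 - xp σ p)⁻¹) ^ (k ^ 2) := by
    funext p
    have hx1 : ((p : ℕ) : ℝ) ^ (-σ) < 1 :=
      Real.rpow_lt_one_of_one_lt_of_neg (by exact_mod_cast p.2.one_lt) (by linarith)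
    obtain ⟨h1, h2, h3⟩ := xp_bounds hσ.le p
    have h6 : (0 : ℝ) < 1 - xp σ p := by linarith
    rw [Dl_eq hk (by positivity) hx1, xp_eq, lf, Real.inv_rpow h6.le]
    have h7 : 0 < (1 - xp σ p) ^ (k ^ 2) := Real.rpow_pos_of_pos h6 _
    field_simp
  rw [h5] at h1
  exact h1.unique h4

theorem DD_asymp2 : ∀ ε : ℝ, 0 < ε → ∃ d : ℝ, 0 < d ∧ ∀ σ : ℝ, 1 / 2 < σ → σ < 1 / 2 + d →
    ∀ k : ℝ, 0 < k → k ≤ 2 → |DD k σ / (aK k * (1 / (2 * σ - 1)) ^ (k ^ 2)) - 1| ≤ ε := by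
  intro ε hε
  have hZ : Tendsto (fun σ : ℝ => 4 * |Real.log ((2 * σ - 1) * Zs (2 * σ))|) (𝓝[>] (1 / 2))
      (𝓝 0) := by
    have h1 : Tendsto (fun σ : ℝ => 2 * σ) (𝓝[>] (1 / 2)) (𝓝[>] 1) := by
      refine tendsto_nhdsWithin_iff.mpr ⟨?_, ?_⟩
      · have : Tendsto (fun σ : ℝ => 2 * σ) (𝓝 (1 / 2)) (𝓝 (2 * (1 / 2))) :=
          (continuous_const.mul continuous_id).tendsto _
        rw [show (2 * (1 / 2) : ℝ) = 1 by norm_num] at this
        exact this.mono_left nhdsWithin_le_nhds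
      · filter_upwards [self_mem_nhdsWithin] with σ hσ
        have : (1 / 2 : ℝ) < σ := hσ
        show (1 : ℝ) < 2 * σ
        linarith
    have h2 := tendsto_sub_mul_tsum_nat_rpow.comp h1
    have h3 := (((Real.continuousAt_log one_ne_zero).tendsto.comp h2).abs).const_mul 4
    rw [Real.log_one, abs_zero, mul_zero] at h3
    exact h3
  have hw := gp2_tendsto.add hZ
  rw [add_zero] at hw
  have hm : 0 < min (1 : ℝ) (ε / 2) := lt_min one_pos (by linarith)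
  have hev := hw.eventually (eventually_lt_nhds hm)
  rw [eventually_nhdsWithin_iff, Metric.eventually_nhds_iff] at hev
  obtain ⟨d, hd, hev⟩ := hev
  refine ⟨d, hd, fun σ hσ1 hσ2 k hk hk2 => ?_⟩
  have h1 := hev (y := σ) (by rw [Real.dist_eq, abs_of_pos (by linarith)]; linarith) hσ1
  have hs : (0 : ℝ) < 2 * σ - 1 := by linarith
  have hZp := Zs_pos (s := 2 * σ) (by linarith)
  have hk4 := sq_le4 hk hk2
  have hk20 : 0 ≤ k ^ 2 := by positivity
  set S : ℝ := ∑' p : Nat.Primes, Real.log (lf k (xp σ p)) with hS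
  set S0 : ℝ := ∑' p : Nat.Primes, Real.log (lf k (((p : ℕ) : ℝ)⁻¹)) with hS0
  set y : ℝ := (2 * σ - 1) * Zs (2 * σ) with hy
  have hy0 : 0 < y := mul_pos hs hZp
  have e1 : DD k σ / (aK k * (1 / (2 * σ - 1)) ^ (k ^ 2)) =
      Real.exp ((S - S0) + k ^ 2 * Real.log y) := by
    rw [DD_eq2 hk hk2 hσ1, aK_exp2 hk hk2, ← hS, ← hS0, Real.exp_add, Real.exp_sub,
      mul_comm (k ^ 2) (Real.log y), Real.exp_mul, Real.exp_log hy0, hy,
      Real.mul_rpow hs.le hZp.le, Real.div_rpow zero_le_one hs.le, Real.one_rpow]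
    have h7 : 0 < (2 * σ - 1) ^ (k ^ 2) := Real.rpow_pos_of_pos hs _
    have h8 := Real.exp_pos S0
    field_simp
  have h2 : |S - S0| ≤ ∑' p : Nat.Primes, gp2 σ p := by
    rw [hS, hS0, ← (summable_log_xp hk hk2 hσ1).tsum_sub (summable_log_lf2 hk hk2),
      ← Real.norm_eq_abs]
    exact tsum_of_norm_bounded (summable_gp2 hσ1.le).hasSum (fun p => by
      rw [Real.norm_eq_abs]; exact log_diff_le2 hk hk2 hσ1.le p)
  have h3 : |k ^ 2 * Real.log y| ≤ 4 * |Real.log y| := by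
    rw [abs_mul, abs_of_nonneg hk20]
    exact mul_le_mul_of_nonneg_right hk4 (abs_nonneg _)
  have h4 : |(S - S0) + k ^ 2 * Real.log y| < min 1 (ε / 2) := by
    calc |(S - S0) + k ^ 2 * Real.log y| ≤ |S - S0| + |k ^ 2 * Real.log y| := abs_add_le _ _
      _ ≤ ∑' p : Nat.Primes, gp2 σ p + 4 * |Real.log y| := add_le_add h2 h3
      _ < _ := h1
  rw [e1]
  have h5 := Real.abs_exp_sub_one_le (x := (S - S0) + k ^ 2 * Real.log y)
    ((h4.trans_le (min_le_left _ _)).le)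
  have h6 := h4.trans_le (min_le_right _ _)
  linarith

end Arith2

theorem stArith2 : StArith2 := by
  refine ⟨fun k h1 h2 => Arith2.aK_pos2 (by linarith) h2, fun ε hε => ?_⟩
  obtain ⟨d, hd, h⟩ := Arith2.DD_asymp2 ε hε
  exact ⟨d, hd, fun σ h1 h2 k h3 h4 => h σ h1 h2 k (by linarith) h4⟩

end K2
end Pool.Agent.Lib.MP_973905_nt
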