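import Pool.Agent.Lib.MP_973905_nt.FinalB
import Pool.Agent.Lib.MP_973905_nt.K1.Defs

/-! Definitions for the near-critical asymptotics of all orders `0 < k < 2` (folder K2). -/

namespace Pool.Agent.Lib.MP_973905_nt
namespace K2

open MeasureTheory ProbabilityTheory Complex Filter Topology

/-- Variance of the long Gaussian mean, `T² + T^{19/10}`. -/
noncomputable def WW (T : ℝ) : NNReal := VV T + Real.toNNReal (T ^ 2)

/-- Gaussian mean over the whole range. -/
noncomputable def EF (T : ℝ) (F : ℝ → ℝ) : ℝ := ∫ t, F t ∂(gaussianReal 0 (WW T))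

/-- Average of the short Gaussian means over the centres in `[a, b]`. -/
noncomputable def AV (T a b : ℝ) (F : ℝ → ℝ) : ℝ := (b - a)⁻¹ * ∫ τ in a..b, EG T τ F

/-- Smoothed partial sum of length `T^{2/5}` (cutoff equal to `1` for `n ≤ T^{3/10}`). -/
noncomputable def SQ (T : ℝ) (f : ℕ → ℂ) : ℂ := K1.SH (1 / 10) T f

end K2
end Pool.Agent.Lib.MP_973905_nt
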